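import Mathlib
import Pool.Agent.Lib_helper27.AA.Final

/-!
# MP_45c08a_co: almost all degree 3-critical graphs have all short cycles

Let `G` be degree 3-critical and `v` a vertex of degree 3.  Then `G - v` is built from a triangle by
adding vertices joined to exactly two earlier ones (its parents).  Following, from a vertex `t`, the
closure of `t` under parents and the lengths of the cycles through the first triangle, one gets: if
`G` has no cycle of length `l` then every vertex has height at most `l/2` (the height is the maximal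
length of a chain of parents).  So the first-parent map is a forest of bounded height, and there are
only `n ^ n / M ^ n` of these (for every `M`), while the second parent and the neighbours of `v` give
at most `n ^ (n + 7)` choices: there are at most `n ^ (2 n) / M ^ n` such graphs.  On the other side
there are at least `n ^ (2 n) / 15116544 ^ n` degree 3-critical graphs.  For isomorphism classes: a
degree 3-critical graph has at most `n * 3 ^ (n - 1)` automorphisms.
-/

set_option autoImplicit false

namespace Pool.Agent.Results.MP_45c08a_co.AlmostAll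

/-- `G` is degree 3-critical: it has `2n-2` edges, and no nonempty proper set of vertices induces a
subgraph of minimum degree at least `3`. -/
def Critical {n : ℕ} (G : SimpleGraph (Fin n)) : Prop :=
  G.edgeSet.ncard = 2 * n - 2 ∧
    ∀ S : Set (Fin n), S.Nonempty → S ≠ Set.univ →
      ∃ v ∈ S, {w : Fin n | w ∈ S ∧ G.Adj v w}.ncard < 3

/-- `G` has no cycle of length `l`, for some `l` with `3 ≤ l ≤ L`. -/
def Misses {n : ℕ} (G : SimpleGraph (Fin n)) (L : ℕ) : Prop :=
  ∃ l, 3 ≤ l ∧ l ≤ L ∧ ¬ ∃ (u : Fin n) (w : G.Walk u u), w.IsCycle ∧ w.length = l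

/-- The number of graphs with vertex set `Fin n` and property `P`. -/
noncomputable def numGraphs (n : ℕ) (P : SimpleGraph (Fin n) → Prop) : ℕ :=
  {G : SimpleGraph (Fin n) | P G}.ncard

/-- The number of isomorphism classes of graphs with vertex set `Fin n` that contain a graph with
property `P`. -/
noncomputable def numClasses (n : ℕ) (P : SimpleGraph (Fin n) → Prop) : ℕ :=
  {c : Set (SimpleGraph (Fin n)) | ∃ G, P G ∧ c = {H | Nonempty (G ≃g H)}}.ncard

open Pool.Agent.AA27

theorem critical_iff {n : ℕ} (G : SimpleGraph (Fin n)) : Critical G ↔ Crit G := by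
  unfold Critical Crit
  rw [Fintype.card_fin]

theorem numGraphs_eq {n : ℕ} (P : SimpleGraph (Fin n) → Prop) (S : Finset (SimpleGraph (Fin n)))
    (h : ∀ G, G ∈ S ↔ P G) : numGraphs n P = S.card := by
  unfold numGraphs
  rw [← Set.ncard_coe_finset]
  congr 1
  ext G
  exact (h G).symm

open Classical in
theorem numClasses_eq {n : ℕ} (P : SimpleGraph (Fin n) → Prop) (S : Finset (SimpleGraph (Fin n)))
    (h : ∀ G, G ∈ S ↔ P G) : numClasses n P = (S.image cls).card := by
  unfold numClasses
  rw [← Set.ncard_coe_finset]
  congr 1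
  ext c
  rw [Finset.mem_coe, Finset.mem_image]
  constructor
  · rintro ⟨G, hG, rfl⟩
    exact ⟨G, (h G).2 hG, rfl⟩
  · rintro ⟨G, hG, rfl⟩
    exact ⟨G, (h G).1 hG, rfl⟩

theorem mem_badF_iff {n L : ℕ} (G : SimpleGraph (Fin n)) :
    G ∈ badF n L ↔ (Critical G ∧ Misses G L) := by
  rw [critical_iff]
  simp only [badF, Finset.mem_filter, Finset.mem_univ, true_and]
  exact Iff.rfl

theorem mem_critF_iff {n : ℕ} (G : SimpleGraph (Fin n)) : G ∈ critF n ↔ Critical G := by
  rw [critical_iff]
  simp only [critF, Finset.mem_filter, Finset.mem_univ, true_and]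

/-- There are at least `n ^ (2 n) / 15116544 ^ n` degree 3-critical graphs on `n ≥ 8` labelled
vertices.  There is a function `C` with `C n → ∞` such that for every `M`, for all large `n`, at most
the part `M ^ (-n)` of the labelled degree 3-critical graphs on `n` vertices, and at most the part
`M ^ (-n)` of their isomorphism classes, misses a cycle length in `[3, C n]`. -/
theorem result :
    (∀ n : ℕ, 8 ≤ n → n ^ (2 * n) ≤ 15116544 ^ n * numGraphs n Critical) ∧
    ∃ C : ℕ → ℕ, Filter.Tendsto C Filter.atTop Filter.atTop ∧
      ∀ M : ℕ, ∃ n₀ : ℕ, ∀ n : ℕ, n₀ ≤ n →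
        M ^ n * numGraphs n (fun G => Critical G ∧ Misses G (C n)) ≤ numGraphs n Critical ∧
        M ^ n * numClasses n (fun G => Critical G ∧ Misses G (C n)) ≤ numClasses n Critical := by
  refine ⟨fun n hn => ?_, ?_⟩
  · have := lower hn
    rw [ncard_crit] at this
    rw [numGraphs_eq Critical (critF n) mem_critF_iff]
    exact this
  · obtain ⟨C, hC, h⟩ := diag
    refine ⟨C, hC, fun M => ?_⟩
    obtain ⟨n₀, hn₀⟩ := h M
    refine ⟨n₀, fun n hn => ?_⟩
    obtain ⟨h4, h5⟩ := hn₀ n hn
    rw [numGraphs_eq _ (badF n (C n)) mem_badF_iff, numGraphs_eq _ (critF n) mem_critF_iff,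
      numClasses_eq _ (badF n (C n)) mem_badF_iff, numClasses_eq _ (critF n) mem_critF_iff]
    refine ⟨le_trans (Nat.mul_le_mul_right _ (Nat.pow_le_pow_left (by omega) n)) h5, ?_⟩
    refine classes_compare h4 M _ _ badF_closed ?_ critF_closed h5
    intro G hG
    have := (mem_badF_iff G).1 hG
    exact (critical_iff G).1 this.1

end Pool.Agent.Results.MP_45c08a_co.AlmostAll
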