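import Pool.Agent.Lib_helper45.C8.Main

/-!
# MP_45c08a_co: every degree 3-critical graph with at least 8 vertices has an 8-cycle

The proof. Let `G` be a degree 3-critical graph with `n ≥ 8` vertices and without 8-cycles. Choose a
vertex `v` of degree 3 with at most one neighbour of degree 3 (if there is none, then `G` is a wheel,
by counting the edges among the vertices of larger degree, and wheels have 8-cycles). The graph
`G - v` is built from a triangle by adding vertices joined to two earlier ones (its parents); by the
choice of `v` only the last vertex has no children. The closure of a vertex is the set of its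
ancestors together with the triangle. Two closures can be united in finitely many ways, and by
induction each closure is isomorphic to one of 71 graphs with at most 8 vertices (`codes`; the kernel
checks all the unions of two of them, `chk`: if the new vertex closes no 8-cycle with the union, the
result is in the list). So `G - v` has at most 8 vertices, and in the remaining cases `n = 8, 9` the
kernel checks that a vertex `v` closes an 8-cycle, or that some proper subset has minimum degree 3.
-/

set_option autoImplicit false

namespace Pool.Agent.Results.MP_45c08a_co.EightCycle

open Pool.Agent.Cyc27 Pool.Agent.C8 in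
/-- Every degree 3-critical graph with `n ≥ 8` vertices (it has `2n-2` edges and no nonempty proper
induced subgraph has minimum degree at least `3`) contains an 8-cycle. -/
theorem result (V : Type) [Fintype V] (G : SimpleGraph V)
    (hE : G.edgeSet.ncard = 2 * Fintype.card V - 2)
    (hG : ∀ S : Set V, S.Nonempty → S ≠ Set.univ →
      ∃ v ∈ S, {w : V | w ∈ S ∧ G.Adj v w}.ncard < 3)
    (hn : 8 ≤ Fintype.card V) :
    ∃ (u : V) (p : G.Walk u u), p.IsCycle ∧ p.length = 8 := by
  classical
  have hdeg : Deg2 G := by
    intro S hS hne
    obtain ⟨v, hv, hlt⟩ := hG (S : Set V) (by exact_mod_cast hS) (by
      intro h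
      exact hne (Finset.coe_eq_univ.1 h))
    refine ⟨v, by exact_mod_cast hv, ?_⟩
    have he : {w : V | w ∈ (S : Set V) ∧ G.Adj v w} =
        ((S.filter (fun w => G.Adj v w) : Finset V) : Set V) := by
      ext w; simp
    rw [he, Set.ncard_coe_finset] at hlt
    unfold dg
    convert hlt
  by_contra h
  exact eight_cycle hdeg hE hn h

end Pool.Agent.Results.MP_45c08a_co.EightCycle
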