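import Mathlib
import Pool.Agent.Lib_helper27.Cyc.Dist

set_option autoImplicit false

namespace Pool.Agent.Results.MP_45c08a_co.EvenCyclesDiam

open Pool.Agent.Cyc27 in
/-- Let `G` be a degree 3-critical graph (`2n-2` edges, no nonempty proper induced subgraph of
minimum degree at least `3`) and let `k ≥ 2`.  If for some vertex `x` the graph `G - x` has two
vertices at distance at least `4k-5` (every walk between them avoiding `x` has length at least
`4k-5`), then `G` has cycles of all lengths `4, 6, ..., 2k`. -/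
theorem result (V : Type) [Fintype V] (G : SimpleGraph V)
    (hE : G.edgeSet.ncard = 2 * Fintype.card V - 2)
    (hG : ∀ S : Set V, S.Nonempty → S ≠ Set.univ →
      ∃ v ∈ S, {w : V | w ∈ S ∧ G.Adj v w}.ncard < 3)
    (k : ℕ) (hk : 2 ≤ k)
    (hfar : ∃ x a b : V, a ≠ x ∧ b ≠ x ∧
      ∀ w : G.Walk a b, x ∉ w.support → 4 * k - 5 ≤ w.length) :
    ∀ j : ℕ, 2 ≤ j → j ≤ k → ∃ (u : V) (p : G.Walk u u), p.IsCycle ∧ p.length = 2 * j := by
  classical
  obtain ⟨x, a, b, hax, hbx, hw⟩ := hfar
  have hdeg : Deg2 G := by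
    intro S hS hne
    obtain ⟨v, hv, hlt⟩ := hG (S : Set V) (by exact_mod_cast hS) (by
      intro h
      exact hne (Finset.coe_eq_univ.1 h))
    refine ⟨v, by exact_mod_cast hv, ?_⟩
    have he : {w : V | w ∈ (S : Set V) ∧ G.Adj v w} = ((S.filter (fun w => G.Adj v w) : Finset V) : Set V) := by
      ext w; simp
    rw [he, Set.ncard_coe_finset] at hlt
    unfold dg
    convert hlt
  have hn : 4 ≤ Fintype.card V := by
    have h1 : 1 < Fintype.card V := Fintype.one_lt_card_iff.2 ⟨a, x, hax⟩
    have h2 : G.edgeSet.ncard ≤ (Fintype.card V).choose 2 := by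
      have := G.card_edgeFinset_le_card_choose_two
      rwa [show G.edgeSet.ncard = G.edgeFinset.card by
        rw [← SimpleGraph.coe_edgeFinset, Set.ncard_coe_finset]]
    rw [hE] at h2
    by_contra hcon
    have h3 : Fintype.card V = 2 ∨ Fintype.card V = 3 := by omega
    rcases h3 with h3 | h3 <;> rw [h3] at h2 <;> simp [Nat.choose] at h2
  rcases even_or_dist G hdeg hE hn hk with h | h
  · exact h
  · obtain ⟨w, hw1, hw2⟩ := h x a b hax hbx
    have := hw w hw2
    omega

end Pool.Agent.Results.MP_45c08a_co.EvenCyclesDiam
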