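import Mathlib
import Pool.Agent.Lib_helper45.GT.Tree

set_option autoImplicit false

namespace Pool.Agent.Results.MP_45c08a_co.EvenCyclesTree

open Pool.Agent.GT45 in
/-- Let `x, y` be adjacent vertices of a finite graph `G` such that `G - {x, y}` is a tree `T` in
which every vertex has degree `3` or has degree `1` and is adjacent to both `x` and `y` in `G`.
If `G` has more than `2 ^ (12 (k-1)) + 2` vertices, or if `T` has two vertices at distance more
than `12 (k-1)`, then `G` has cycles of all lengths `4, 6, ..., 2k`. -/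
theorem result (V : Type) [Fintype V] (G : SimpleGraph V) (x y : V) (hxy : G.Adj x y)
    (hT : (G.induce {v | v ≠ x ∧ v ≠ y}).IsTree)
    (hdeg : ∀ v : {v | v ≠ x ∧ v ≠ y},
      ((G.induce {v | v ≠ x ∧ v ≠ y}).neighborSet v).ncard = 3 ∨
      (((G.induce {v | v ≠ x ∧ v ≠ y}).neighborSet v).ncard = 1 ∧ G.Adj x v ∧ G.Adj y v))
    (k : ℕ)
    (hbig : 2 ^ (12 * (k - 1)) + 2 < Fintype.card V ∨
      ∃ a b : {v | v ≠ x ∧ v ≠ y}, 12 * (k - 1) < (G.induce {v | v ≠ x ∧ v ≠ y}).dist a b) :
    ∀ j : ℕ, 2 ≤ j → j ≤ k → ∃ (u : V) (p : G.Walk u u), p.IsCycle ∧ p.length = 2 * j := by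
  classical
  set T := G.induce {v | v ≠ x ∧ v ≠ y} with hTdef
  have hdeg' : ∀ v, (T.neighborSet v).ncard = 3 ∨ (T.neighborSet v).ncard = 1 := by
    intro v
    rcases hdeg v with h | h
    · exact Or.inl h
    · exact Or.inr h.1
  have hterm : ∀ v, (T.neighborSet v).ncard = 1 → Term G x y (v : V) := by
    intro v hv
    rcases hdeg v with h | h
    · rw [hv] at h
      exact absurd h (by norm_num)
    · exact h.2
  have hadj : ∀ a b, T.Adj a b → G.Adj (a : V) (b : V) := fun a b h => h
  have hfar : ∃ a b : {v | v ≠ x ∧ v ≠ y}, 12 * (k - 1) < T.dist a b := by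
    rcases hbig with hbig | hbig
    · by_contra hcon
      push Not at hcon
      have hcard : Nat.card {v | v ≠ x ∧ v ≠ y} + 2 = Fintype.card V := by
        have h1 : {v | v ≠ x ∧ v ≠ y} = ({x, y} : Set V)ᶜ := by
          ext v
          simp
        have h2 := Set.ncard_add_ncard_compl ({x, y} : Set V)
        rw [Set.ncard_pair hxy.ne, ← h1, Nat.card_eq_fintype_card] at h2
        rw [Nat.card_coe_set_eq]
        omega
      -- a leaf
      have hnt : Nontrivial {v | v ≠ x ∧ v ≠ y} := by
        rw [← Finite.one_lt_card_iff_nontrivial]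
        have : 1 ≤ 2 ^ (12 * (k - 1)) := Nat.one_le_two_pow
        omega
      obtain ⟨r, hr⟩ := hT.exists_vert_degree_one_of_nontrivial
      have hr' : (T.neighborSet r).ncard = 1 := by
        rw [← hr, ← SimpleGraph.card_neighborSet_eq_degree, Set.ncard_eq_toFinset_card',
          Set.toFinset_card]
      have h3 : ∀ v, (T.neighborSet v).ncard ≤ 3 := by
        intro v
        rcases hdeg' v with h | h <;> omega
      have := card_le hT r hr' h3 (12 * (k - 1)) (fun w => hcon r w)
      omega
    · exact hbig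
  obtain ⟨a, b, hab⟩ := hfar
  obtain ⟨p, U, c, S⟩ := exists_spine (G := G) (x := x) (y := y) (f := Subtype.val) hT a b
    Subtype.val_injective hadj hdeg' hterm hxy (fun w => w.2.1) (fun w => w.2.2)
  intro j hj hjk
  exact S.cycle hj (by omega)

end Pool.Agent.Results.MP_45c08a_co.EvenCyclesTree
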